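import Pool.Agent.P8H39.TI.Stm

/-!
# Project TI (MP_d97b4e_co), package WA: evaluation of Wilson's sum
-/

set_option autoImplicit false

namespace Pool.Agent.P8H23.TiWA

open Finset Pool.Agent.P8H39.TI

noncomputable section

/-- `Σ_{b ≤ a} (-1)^b C(a,b) h(b)` -/
def DD (a : ℕ) (h : ℕ → ℝ) : ℝ := ∑ b ∈ range (a + 1), (-1 : ℝ) ^ b * (a.choose b : ℝ) * h b

theorem DD_zero (h : ℕ → ℝ) : DD 0 h = h 0 := by simp [DD]

theorem DD_succ (a : ℕ) (h : ℕ → ℝ) : DD (a + 1) h = DD a h - DD a (fun b => h (b + 1)) := by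
  unfold DD
  have e1 : ∑ b ∈ range (a + 1), (-1 : ℝ) ^ b * (a.choose b : ℝ) * h b
      = ∑ b ∈ range (a + 1 + 1), (-1 : ℝ) ^ b * (a.choose b : ℝ) * h b := by
    rw [Finset.sum_range_succ _ (a + 1)]
    simp
  rw [e1, Finset.sum_range_succ' _ (a + 1), Finset.sum_range_succ' _ (a + 1)]
  have e2 : ∑ b ∈ range (a + 1), (-1 : ℝ) ^ (b + 1) * ((a + 1).choose (b + 1) : ℝ) * h (b + 1)
      = ∑ b ∈ range (a + 1), (-1 : ℝ) ^ (b + 1) * (a.choose (b + 1) : ℝ) * h (b + 1)
        - ∑ b ∈ range (a + 1), (-1 : ℝ) ^ b * (a.choose b : ℝ) * h (b + 1) := by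
    rw [← Finset.sum_sub_distrib]
    refine Finset.sum_congr rfl fun b _ => ?_
    rw [Nat.choose_succ_succ]
    push_cast
    ring
  rw [e2]
  simp
  ring

theorem DD_ext (a t : ℕ) (hat : a < t) (h : ℕ → ℝ) :
    ∑ b ∈ range t, (-1 : ℝ) ^ b * (a.choose b : ℝ) * h b = DD a h := by
  unfold DD
  symm
  refine Finset.sum_subset ?_ ?_
  · intro b hb
    rw [mem_range] at hb ⊢
    omega
  · intro b _ hb
    rw [mem_range] at hb
    rw [Nat.choose_eq_zero_of_lt (by omega)]
    simp

/-- finite differences of `1 / (N+b)_m` -/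
theorem DD_inv (m : ℕ) (hm : 1 ≤ m) (a : ℕ) : ∀ N : ℕ, m ≤ N →
    DD a (fun b => 1 / (((N + b).descFactorial m : ℕ) : ℝ))
      = ((m + a - 1).factorial : ℝ) / (((m - 1).factorial : ℝ) *
        (((N + a).descFactorial (m + a) : ℕ) : ℝ)) := by
  induction a with
  | zero =>
    intro N hN
    rw [DD_zero]
    have : ((m - 1).factorial : ℝ) ≠ 0 := by positivity
    have h2 : (((N).descFactorial m : ℕ) : ℝ) ≠ 0 := by
      have := (Nat.descFactorial_pos).2 hN
      positivity
    simp only [Nat.add_zero]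
    field_simp
  | succ a ih =>
    intro N hN
    rw [DD_succ, ih N hN]
    have h1 := ih (N + 1) (by omega)
    have e : (fun b => 1 / (((N + (b + 1)).descFactorial m : ℕ) : ℝ))
        = (fun b => 1 / (((N + 1 + b).descFactorial m : ℕ) : ℝ)) := by
      funext b
      rw [show N + (b + 1) = N + 1 + b by ring]
    rw [e, h1]
    have hf : ((m - 1).factorial : ℝ) ≠ 0 := by positivity
    -- X = (N+a)_(m+a), Y = (N+1+a)_(m+a), Z = (N+a+1)_(m+a+1)
    have hZ1 : (N + a + 1).descFactorial (m + a + 1) = (N + a + 1) * (N + a).descFactorial (m + a) :=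
      Nat.succ_descFactorial_succ _ _
    have hZ2 : (N + a + 1).descFactorial (m + a + 1)
        = (N + a + 1 - (m + a)) * (N + a + 1).descFactorial (m + a) := Nat.descFactorial_succ _ _
    have hX : 0 < (N + a).descFactorial (m + a) := (Nat.descFactorial_pos).2 (by omega)
    have hY : 0 < (N + a + 1).descFactorial (m + a) := (Nat.descFactorial_pos).2 (by omega)
    have hZ : 0 < (N + a + 1).descFactorial (m + a + 1) := (Nat.descFactorial_pos).2 (by omega)
    have hsub : N + a + 1 - (m + a) = N + 1 - m := by omega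
    rw [hsub] at hZ2
    have hZ1r : (((N + a + 1).descFactorial (m + a + 1) : ℕ) : ℝ)
        = ((N : ℝ) + a + 1) * (((N + a).descFactorial (m + a) : ℕ) : ℝ) := by
      rw [hZ1]; push_cast; ring
    have hZ2r : (((N + a + 1).descFactorial (m + a + 1) : ℕ) : ℝ)
        = ((N : ℝ) + 1 - m) * (((N + a + 1).descFactorial (m + a) : ℕ) : ℝ) := by
      rw [hZ2, Nat.cast_mul, Nat.cast_sub (by omega)]; push_cast; ring
    have hfac : (m + (a + 1) - 1).factorial = (m + a) * (m + a - 1).factorial := by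
      have : m + (a + 1) - 1 = (m + a - 1) + 1 := by omega
      rw [this, Nat.factorial_succ]
      congr 1
      omega
    rw [hfac, show N + 1 + a = N + a + 1 by ring, show N + (a + 1) = N + a + 1 by ring,
      show m + (a + 1) = m + a + 1 by ring]
    set X : ℝ := (((N + a).descFactorial (m + a) : ℕ) : ℝ) with hXd
    set Y : ℝ := (((N + a + 1).descFactorial (m + a) : ℕ) : ℝ) with hYd
    set Z : ℝ := (((N + a + 1).descFactorial (m + a + 1) : ℕ) : ℝ) with hZd
    have hX' : 0 < X := by rw [hXd]; exact_mod_cast hX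
    have hY' : 0 < Y := by rw [hYd]; exact_mod_cast hY
    have hZ' : 0 < Z := by rw [hZd]; exact_mod_cast hZ
    have i1 : 1 / X = ((N : ℝ) + a + 1) / Z := by
      rw [div_eq_div_iff hX'.ne' hZ'.ne', hZ1r]; ring
    have i2 : 1 / Y = ((N : ℝ) + 1 - m) / Z := by
      rw [div_eq_div_iff hY'.ne' hZ'.ne', hZ2r]; ring
    have k1 : ((m + a - 1).factorial : ℝ) / (((m - 1).factorial : ℝ) * X)
        = ((m + a - 1).factorial : ℝ) / ((m - 1).factorial : ℝ) * (1 / X) := by
      field_simp
    have k2 : ((m + a - 1).factorial : ℝ) / (((m - 1).factorial : ℝ) * Y)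
        = ((m + a - 1).factorial : ℝ) / ((m - 1).factorial : ℝ) * (1 / Y) := by
      field_simp
    rw [k1, k2, i1, i2]
    push_cast
    field_simp
    ring

/-- finite differences of `(N+b)_c` -/
theorem DD_poly (c a : ℕ) : ∀ N : ℕ,
    DD a (fun b => (((N + b).descFactorial c : ℕ) : ℝ))
      = (-1 : ℝ) ^ a * ((c.descFactorial a : ℕ) : ℝ) * ((N.descFactorial (c - a) : ℕ) : ℝ) := by
  induction a with
  | zero =>
    intro N
    rw [DD_zero]
    simp
  | succ a ih =>
    intro N
    rw [DD_succ, ih N]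
    have e : (fun b => (((N + (b + 1)).descFactorial c : ℕ) : ℝ))
        = (fun b => (((N + 1 + b).descFactorial c : ℕ) : ℝ)) := by
      funext b
      rw [show N + (b + 1) = N + 1 + b by ring]
    rw [e, ih (N + 1)]
    rcases le_or_gt c a with hca | hca
    · rw [Nat.sub_eq_zero_of_le hca, Nat.sub_eq_zero_of_le (by omega : c ≤ a + 1),
        Nat.descFactorial_of_lt (by omega : c < a + 1)]
      simp
    · obtain ⟨d, rfl⟩ : ∃ d, c = a + 1 + d := ⟨c - (a + 1), by omega⟩
      rw [show a + 1 + d - a = d + 1 by omega, show a + 1 + d - (a + 1) = d by omega,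
        Nat.succ_descFactorial_succ, Nat.descFactorial_succ, Nat.descFactorial_succ,
        show a + 1 + d - a = d + 1 by omega]
      rcases le_or_gt d N with hd | hd
      · rw [Nat.cast_mul, Nat.cast_sub hd]
        push_cast
        ring
      · rw [Nat.descFactorial_of_lt hd]
        simp

/-- `C(M, K) (K)_m = (M)_m C(M-m, K-m)` -/
theorem ratio (M K m : ℕ) (hm : m ≤ K) (hK : K ≤ M) :
    M.choose K * K.descFactorial m = M.descFactorial m * (M - m).choose (K - m) := by
  rw [Nat.descFactorial_eq_factorial_mul_choose, Nat.descFactorial_eq_factorial_mul_choose]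
  have : M.choose K * K.choose m = M.choose m * (M - m).choose (K - m) := Nat.choose_mul hm
  calc M.choose K * (m.factorial * K.choose m)
      = m.factorial * (M.choose K * K.choose m) := by ring
    _ = m.factorial * (M.choose m * (M - m).choose (K - m)) := by rw [this]
    _ = _ := by ring

/-- Vandermonde in the form needed -/
theorem vand (q s t b : ℕ) (hb : b < t) :
    q.choose b * (q - b + s).choose (t - 1 - b)
      = ∑ a ∈ range t, q.choose a * a.choose b * s.choose (t - 1 - a) := by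
  rcases le_or_gt b q with hbq | hbq
  · obtain ⟨u, rfl⟩ : ∃ u, t = b + u + 1 := ⟨t - 1 - b, by omega⟩
    rw [show b + u + 1 = b + (u + 1) by ring, Finset.sum_range_add]
    have hz : ∑ a ∈ range b, q.choose a * a.choose b * s.choose (b + (u + 1) - 1 - a) = 0 := by
      refine Finset.sum_eq_zero fun a ha => ?_
      rw [mem_range] at ha
      rw [Nat.choose_eq_zero_of_lt ha]
      ring
    rw [hz, zero_add, show b + (u + 1) - 1 - b = u by omega, Nat.add_choose_eq,
      Finset.Nat.sum_antidiagonal_eq_sum_range_succ_mk, Finset.mul_sum]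
    refine Finset.sum_congr rfl fun i hi => ?_
    rw [mem_range] at hi
    have h1 : q.choose (b + i) * (b + i).choose b = q.choose b * (q - b).choose i := by
      rcases le_or_gt (b + i) q with h | h
      · have : q.choose (b + i) * (b + i).choose b = q.choose b * (q - b).choose (b + i - b) :=
          Nat.choose_mul (Nat.le_add_right b i)
        rw [this]
        congr 2
        omega
      · rw [Nat.choose_eq_zero_of_lt h, Nat.choose_eq_zero_of_lt (by omega : q - b < i)]
        ring
    rw [h1, show b + (u + 1) - 1 - (b + i) = u - i by omega]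
    ring
  · rw [Nat.choose_eq_zero_of_lt hbq, zero_mul]
    symm
    refine Finset.sum_eq_zero fun a _ => ?_
    rcases le_or_gt b a with h | h
    · rw [Nat.choose_eq_zero_of_lt (by omega : q < a)]
      ring
    · rw [Nat.choose_eq_zero_of_lt h]
      ring

/-- common form: exchange of the sums -/
theorem exch (q s t : ℕ) (h : ℕ → ℝ) :
    ∑ b ∈ range t, (-1 : ℝ) ^ b * ((q.choose b : ℝ) * ((q - b + s).choose (t - 1 - b) : ℝ)) * h b
      = ∑ a ∈ range t, (q.choose a : ℝ) * (s.choose (t - 1 - a) : ℝ) * DD a h := by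
  have e1 : ∀ b ∈ range t, (-1 : ℝ) ^ b *
      ((q.choose b : ℝ) * ((q - b + s).choose (t - 1 - b) : ℝ)) * h b
      = ∑ a ∈ range t, (q.choose a : ℝ) * (s.choose (t - 1 - a) : ℝ) *
        ((-1 : ℝ) ^ b * (a.choose b : ℝ) * h b) := by
    intro b hb
    have := vand q s t b (mem_range.1 hb)
    have hr : (q.choose b : ℝ) * ((q - b + s).choose (t - 1 - b) : ℝ)
        = ∑ a ∈ range t, (q.choose a : ℝ) * (a.choose b : ℝ) * (s.choose (t - 1 - a) : ℝ) := by
      exact_mod_cast this
    rw [hr, Finset.mul_sum, Finset.sum_mul]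
    refine Finset.sum_congr rfl fun a _ => ?_
    ring
  rw [Finset.sum_congr rfl e1, Finset.sum_comm]
  refine Finset.sum_congr rfl fun a ha => ?_
  rw [← Finset.mul_sum, DD_ext a t (mem_range.1 ha)]

theorem sgn (t b : ℕ) (hb : b < t) : (-1 : ℝ) ^ (t - 1 - b) = (-1 : ℝ) ^ (t + 1) * (-1 : ℝ) ^ b := by
  obtain ⟨u, rfl⟩ : ∃ u, t = b + u + 1 := ⟨t - 1 - b, by omega⟩
  rw [show b + u + 1 - 1 - b = u by omega, ← pow_add, show b + u + 1 + 1 + b = u + 2 * (b + 1) by ring,
    pow_add, pow_mul]
  simp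

/-- part (1) of `S_WA` -/
theorem wa1 (n k t : ℕ) (ht : 1 ≤ t) (htk : t < k) (hn : 2 * k ≤ n) (j : ℕ) (hj : 1 ≤ j)
    (hjt : j ≤ t) : theta n k t j = -1 := by
  obtain ⟨κ, rfl⟩ : ∃ κ, k = κ + t := ⟨k - t, by omega⟩
  obtain ⟨N, rfl⟩ : ∃ N, n = N + κ + t + t := ⟨n - (κ + t + t), by omega⟩
  obtain ⟨m, rfl⟩ : ∃ m, t = m + j := ⟨t - j, by omega⟩
  have hκN : κ ≤ N := by omega
  unfold theta
  have hpos : (0 : ℝ) < (((κ + m).descFactorial m : ℕ) : ℝ) := by
    have := (Nat.descFactorial_pos).2 (by omega : m ≤ κ + m)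
    exact_mod_cast this
  have e1 : ∀ b ∈ range (m + j), (-1 : ℝ) ^ (m + j - 1 - b) *
      ((κ + (m + j) - 1 - b).choose (κ + (m + j) - (m + j)) : ℝ) /
      ((N + κ + (m + j) + (m + j) - (κ + (m + j)) - (m + j) + b).choose
        (κ + (m + j) - (m + j)) : ℝ) *
      ((-1 : ℝ) ^ j * ((κ + (m + j) - j).choose b : ℝ) *
        ((N + κ + (m + j) + (m + j) - (κ + (m + j)) + b - j).choose (κ + (m + j) - j) : ℝ))
      = ((-1 : ℝ) ^ (m + 1) / (((κ + m).descFactorial m : ℕ) : ℝ)) *
        ((-1 : ℝ) ^ b * (((κ + m).choose b : ℝ) *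
          ((κ + m - b + (j - 1)).choose (m + j - 1 - b) : ℝ)) *
          (((N + m + b).descFactorial m : ℕ) : ℝ)) := by
    intro b hb
    rw [mem_range] at hb
    rw [show κ + (m + j) - (m + j) = κ by omega,
      show N + κ + (m + j) + (m + j) - (κ + (m + j)) - (m + j) + b = N + b by omega,
      show κ + (m + j) - j = κ + m by omega,
      show N + κ + (m + j) + (m + j) - (κ + (m + j)) + b - j = N + m + b by omega, sgn _ _ hb]
    rcases le_or_gt b (κ + m) with hbq | hbq
    · rw [show κ + m - b + (j - 1) = κ + (m + j) - 1 - b by omega]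
      have hc : (κ + (m + j) - 1 - b).choose κ = (κ + (m + j) - 1 - b).choose (m + j - 1 - b) := by
        rw [← Nat.choose_symm (by omega : κ ≤ κ + (m + j) - 1 - b)]
        congr 1
        omega
      rw [hc]
      have hr := ratio (N + m + b) (κ + m) m (by omega) (by omega)
      rw [show N + m + b - m = N + b by omega, show κ + m - m = κ by omega] at hr
      have hr' : ((N + m + b).choose (κ + m) : ℝ) * (((κ + m).descFactorial m : ℕ) : ℝ)
          = (((N + m + b).descFactorial m : ℕ) : ℝ) * ((N + b).choose κ : ℝ) := by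
        exact_mod_cast hr
      have hC : (0 : ℝ) < ((N + b).choose κ : ℝ) := by
        exact_mod_cast Nat.choose_pos (by omega : κ ≤ N + b)
      have hq : ((N + m + b).choose (κ + m) : ℝ) / ((N + b).choose κ : ℝ)
          = (((N + m + b).descFactorial m : ℕ) : ℝ) / (((κ + m).descFactorial m : ℕ) : ℝ) := by
        rw [div_eq_div_iff hC.ne' hpos.ne', hr']
      have hs : (-1 : ℝ) ^ (m + j + 1) * (-1 : ℝ) ^ j = (-1 : ℝ) ^ (m + 1) := by
        rw [← pow_add, show m + j + 1 + j = (m + 1) + 2 * j by ring, pow_add, pow_mul]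
        simp
      calc _ = ((-1 : ℝ) ^ (m + j + 1) * (-1 : ℝ) ^ j) * ((-1 : ℝ) ^ b * (((κ + m).choose b : ℝ) *
          ((κ + (m + j) - 1 - b).choose (m + j - 1 - b) : ℝ))) *
          (((N + m + b).choose (κ + m) : ℝ) / ((N + b).choose κ : ℝ)) := by
            field_simp
        _ = _ := by
            rw [hs, hq]
            field_simp
    · rw [Nat.choose_eq_zero_of_lt hbq]
      simp
  rw [Finset.sum_congr rfl e1, ← Finset.mul_sum, exch]
  have e2 : ∑ a ∈ range (m + j), ((κ + m).choose a : ℝ) * ((j - 1).choose (m + j - 1 - a) : ℝ) *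
      DD a (fun b => (((N + m + b).descFactorial m : ℕ) : ℝ))
      = (-1 : ℝ) ^ m * (((κ + m).descFactorial m : ℕ) : ℝ) := by
    rw [Finset.sum_eq_single m]
    · rw [DD_poly, show m + j - 1 - m = j - 1 by omega, Nat.choose_self, Nat.sub_self,
        Nat.descFactorial_zero, Nat.descFactorial_self,
        Nat.descFactorial_eq_factorial_mul_choose (κ + m) m]
      push_cast
      ring
    · intro a ha hne
      rw [mem_range] at ha
      rcases lt_or_gt_of_ne hne with h | h
      · rw [Nat.choose_eq_zero_of_lt (by omega : j - 1 < m + j - 1 - a)]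
        simp
      · rw [DD_poly, Nat.descFactorial_of_lt h]
        simp
    · intro h
      exact absurd (mem_range.2 (by omega)) h
  rw [e2]
  have hs : (-1 : ℝ) ^ (m + 1) * (-1 : ℝ) ^ m = -1 := by
    rw [← pow_add, show m + 1 + m = 2 * m + 1 by ring, pow_add, pow_mul]
    simp
  calc _ = ((-1 : ℝ) ^ (m + 1) * (-1 : ℝ) ^ m) * ((((κ + m).descFactorial m : ℕ) : ℝ) /
      (((κ + m).descFactorial m : ℕ) : ℝ)) := by ring
    _ = -1 := by rw [hs, div_self hpos.ne']; ring

/-- part (2) of `S_WA` -/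
theorem wa2 (n k t : ℕ) (ht : 1 ≤ t) (htk : t < k) (hn : 2 * k ≤ n) (m : ℕ) (hm : 1 ≤ m)
    (hmk : t + m ≤ k) :
    theta n k t (t + m) = (-1 : ℝ) ^ (m - 1) * TT t m (k - t) (n - k - t) := by
  obtain ⟨κ, rfl⟩ : ∃ κ, k = κ + t := ⟨k - t, by omega⟩
  obtain ⟨N, rfl⟩ : ∃ N, n = N + κ + t + t := ⟨n - (κ + t + t), by omega⟩
  have hκN : κ ≤ N := by omega
  have hmκ : m ≤ κ := by omega
  unfold theta TT
  rw [show κ + t - t = κ by omega, show N + κ + t + t - (κ + t) - t = N by omega]
  have e1 : ∀ b ∈ range t, (-1 : ℝ) ^ (t - 1 - b) * ((κ + t - 1 - b).choose κ : ℝ) /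
      ((N + b).choose κ : ℝ) *
      ((-1 : ℝ) ^ (t + m) * ((κ + t - (t + m)).choose b : ℝ) *
        ((N + κ + t + t - (κ + t) + b - (t + m)).choose (κ + t - (t + m)) : ℝ))
      = ((-1 : ℝ) ^ (m - 1) * ((κ.descFactorial m : ℕ) : ℝ)) *
        ((-1 : ℝ) ^ b * (((κ - m).choose b : ℝ) *
          ((κ - m - b + (t + m - 1)).choose (t - 1 - b) : ℝ)) *
          (1 / (((N + b).descFactorial m : ℕ) : ℝ))) := by
    intro b hb
    rw [mem_range] at hb
    rw [show κ + t - (t + m) = κ - m by omega,
      show N + κ + t + t - (κ + t) + b - (t + m) = N + b - m by omega, sgn _ _ hb]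
    rcases le_or_gt b (κ - m) with hbq | hbq
    · rw [show κ - m - b + (t + m - 1) = κ + t - 1 - b by omega]
      have hc : (κ + t - 1 - b).choose κ = (κ + t - 1 - b).choose (t - 1 - b) := by
        rw [← Nat.choose_symm (by omega : κ ≤ κ + t - 1 - b)]
        congr 1
        omega
      rw [hc]
      have hr := ratio (N + b) κ m hmκ (by omega)
      have hr' : ((N + b).choose κ : ℝ) * ((κ.descFactorial m : ℕ) : ℝ)
          = (((N + b).descFactorial m : ℕ) : ℝ) * ((N + b - m).choose (κ - m) : ℝ) := by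
        exact_mod_cast hr
      have hC : (0 : ℝ) < ((N + b).choose κ : ℝ) := by
        exact_mod_cast Nat.choose_pos (by omega : κ ≤ N + b)
      have hD : (0 : ℝ) < (((N + b).descFactorial m : ℕ) : ℝ) := by
        exact_mod_cast (Nat.descFactorial_pos).2 (by omega : m ≤ N + b)
      have hq : ((N + b - m).choose (κ - m) : ℝ) / ((N + b).choose κ : ℝ)
          = ((κ.descFactorial m : ℕ) : ℝ) / (((N + b).descFactorial m : ℕ) : ℝ) := by
        rw [div_eq_div_iff hC.ne' hD.ne']
        linarith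
      have hs : (-1 : ℝ) ^ (t + 1) * (-1 : ℝ) ^ (t + m) = (-1 : ℝ) ^ (m - 1) := by
        obtain ⟨m', rfl⟩ : ∃ m', m = m' + 1 := ⟨m - 1, by omega⟩
        rw [← pow_add, show t + 1 + (t + (m' + 1)) = m' + 2 * (t + 1) by ring, pow_add, pow_mul]
        simp
      calc _ = ((-1 : ℝ) ^ (t + 1) * (-1 : ℝ) ^ (t + m)) * ((-1 : ℝ) ^ b * (((κ - m).choose b : ℝ) *
          ((κ + t - 1 - b).choose (t - 1 - b) : ℝ))) *
          (((N + b - m).choose (κ - m) : ℝ) / ((N + b).choose κ : ℝ)) := by
            field_simp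
        _ = _ := by
            rw [hs, hq]
            field_simp
    · rw [Nat.choose_eq_zero_of_lt hbq]
      simp
  rw [Finset.sum_congr rfl e1, ← Finset.mul_sum, exch, mul_assoc, Finset.mul_sum]
  congr 1
  refine Finset.sum_congr rfl fun a ha => ?_
  rw [mem_range] at ha
  rw [DD_inv m hm a N (by omega)]
  have hsym : (t + m - 1).choose (t - 1 - a) = (t + m - 1).choose (m + a) := by
    rw [← Nat.choose_symm (by omega : m + a ≤ t + m - 1)]
    congr 1
    omega
  rw [hsym]
  have hD : (0 : ℝ) < (((N + a).descFactorial (m + a) : ℕ) : ℝ) := by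
    exact_mod_cast (Nat.descFactorial_pos).2 (by omega : m + a ≤ N + a)
  have h1 : (κ.descFactorial m : ℕ) * (κ - m).choose a * a.factorial = κ.descFactorial (m + a) := by
    have h2 : (κ - m).descFactorial a * κ.descFactorial m = κ.descFactorial (m + a) := by
      have := Nat.descFactorial_mul_descFactorial (n := κ) (k := m) (m := m + a)
        (Nat.le_add_right m a)
      rw [show m + a - m = a by omega] at this
      exact this
    rw [← h2, Nat.descFactorial_eq_factorial_mul_choose (κ - m) a]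
    ring
  have h1' : ((κ.descFactorial m : ℕ) : ℝ) * ((κ - m).choose a : ℝ) * (a.factorial : ℝ)
      = ((κ.descFactorial (m + a) : ℕ) : ℝ) := by exact_mod_cast h1
  have h3 : (m + a - 1).choose a * (a.factorial * (m - 1).factorial) = (m + a - 1).factorial := by
    have := Nat.choose_mul_factorial_mul_factorial (by omega : a ≤ m + a - 1)
    rw [show m + a - 1 - a = m - 1 by omega] at this
    rw [← this]
    ring
  have h3' : ((m + a - 1).choose a : ℝ) * ((a.factorial : ℝ) * ((m - 1).factorial : ℝ))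
      = ((m + a - 1).factorial : ℝ) := by exact_mod_cast h3
  have hf1 : (0 : ℝ) < ((m - 1).factorial : ℝ) := by positivity
  have hf2 : (0 : ℝ) < (a.factorial : ℝ) := by positivity
  rw [← h1', ← h3']
  field_simp

/-- package WA -/
theorem t_WA : S_WA := by
  intro n k t ht htk hn
  exact ⟨fun j hj hjt => wa1 n k t ht htk hn j hj hjt, fun m hm hmk => wa2 n k t ht htk hn m hm hmk⟩

end

end Pool.Agent.P8H23.TiWA
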